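import Pool.Agent.Helper20.GT.Stm2

/-!
# Project GT: package MS, all scales at once
-/

set_option autoImplicit false

open Finset Filter Topology
open scoped Classical

namespace Pool.Agent.Helper20.GT2.MSP

open Pool.Agent.Helper20.GT2

/-- the scales -/
def m (a : ℕ) : ℕ := 2 ^ (2 ^ a)

lemma m_succ (a : ℕ) : m (a + 1) = m a * m a := by
  unfold m
  rw [pow_succ 2 a, pow_mul, sq]

lemma m_pos (a : ℕ) : 0 < m a := by
  unfold m
  positivity

lemma two_le_m (a : ℕ) : 2 ≤ m a := by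
  unfold m
  calc 2 = 2 ^ 1 := rfl
    _ ≤ 2 ^ (2 ^ a) := Nat.pow_le_pow_right (by norm_num) Nat.one_le_two_pow

lemma m_ge (a k : ℕ) : m a * 2 ^ k ≤ m (a + k) := by
  induction k with
  | zero => simp
  | succ k ih =>
    rw [← add_assoc, m_succ, pow_succ, ← mul_assoc]
    exact Nat.mul_le_mul ih (two_le_m _)

/-- the digits -/
noncomputable def e (a : ℕ) (r : ℝ) : ℕ := ⌊r * m a⌋₊

lemma e_eq (a k : ℕ) (h : a ≤ k) (r : ℝ) : e a r = e k r / 2 ^ (2 ^ k - 2 ^ a) := by
  unfold e
  rw [← Nat.floor_div_natCast]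
  congr 1
  have h1 : (m k : ℝ) = m a * ((2 ^ (2 ^ k - 2 ^ a) : ℕ) : ℝ) := by
    have : m k = m a * 2 ^ (2 ^ k - 2 ^ a) := by
      unfold m
      rw [← pow_add]
      congr 1
      have := Nat.pow_le_pow_right (n := 2) (by norm_num) h
      omega
    exact_mod_cast this
  have h2 : ((2 ^ (2 ^ k - 2 ^ a) : ℕ) : ℝ) ≠ 0 := by positivity
  rw [h1, ← mul_assoc, mul_div_cancel_right₀ _ h2]

lemma e_div (a : ℕ) (r : ℝ) : e a r = e (a + 1) r / m a := by
  rw [e_eq a (a + 1) (Nat.le_succ a) r]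
  congr 1
  unfold m
  congr 1
  rw [pow_succ]
  omega

/-- the lower digits -/
noncomputable def dg (a : ℕ) (r : ℝ) : ℕ := e (a + 1) r % m a

lemma dg_lt (a : ℕ) (r : ℝ) : dg a r < m a := Nat.mod_lt _ (m_pos a)

lemma e_succ (a : ℕ) (r : ℝ) : e (a + 1) r = m a * e a r + dg a r := by
  rw [e_div a r, dg]
  exact (Nat.div_add_mod _ _).symm

lemma e_le (a : ℕ) (r : ℝ) (h1 : r ≤ 1) : e a r ≤ m a := by
  unfold e
  refine Nat.floor_le_of_le ?_
  have : (0 : ℝ) ≤ m a := Nat.cast_nonneg _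
  nlinarith

lemma e_close (a : ℕ) (r : ℝ) (h0 : 0 ≤ r) : 0 ≤ r - e a r / m a ∧ r - e a r / m a ≤ 1 / m a := by
  have hm : (0 : ℝ) < m a := by exact_mod_cast m_pos a
  have h1 : (e a r : ℝ) ≤ r * m a := Nat.floor_le (by positivity)
  have h2 : r * m a < e a r + 1 := Nat.lt_floor_add_one _
  constructor
  · rw [sub_nonneg, div_le_iff₀ hm]
    exact h1
  · rw [sub_le_iff_le_add, ← add_div, le_div_iff₀ hm]
    linarith

/-- Covering by small intervals. -/
lemma cover (E : Finset ℝ) (ρ δ : ℝ) (hρ : 0 ≤ ρ) (hδ : 0 < δ) : ∃ P : Finset ℝ,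
    (P.card : ℝ) ≤ E.card * (2 * (ρ / δ) + 3) ∧
      ∀ y : ℝ, (∃ c ∈ E, |y - c| ≤ ρ) → ∃ p ∈ P, |y - p| ≤ δ := by
  obtain ⟨J, hJ⟩ : ∃ J : ℕ, J = ⌈ρ / δ⌉₊ := ⟨_, rfl⟩
  have hJ1 : ρ / δ ≤ J := by rw [hJ]; exact Nat.le_ceil _
  have hJ2 : (J : ℝ) ≤ ρ / δ + 1 := by
    rw [hJ]
    exact (Nat.ceil_lt_add_one (by positivity)).le
  refine ⟨(E ×ˢ Finset.Icc (-(J : ℤ)) J).image (fun z => z.1 + z.2 * δ), ?_, ?_⟩
  · have h1 : ((E ×ˢ Finset.Icc (-(J : ℤ)) J).image (fun z : ℝ × ℤ => z.1 + z.2 * δ)).card ≤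
        E.card * (2 * J + 1) := by
      refine Finset.card_image_le.trans ?_
      rw [Finset.card_product, Int.card_Icc]
      apply Nat.mul_le_mul_left
      omega
    calc (((E ×ˢ Finset.Icc (-(J : ℤ)) J).image (fun z : ℝ × ℤ => z.1 + z.2 * δ)).card : ℝ) ≤
        ((E.card * (2 * J + 1) : ℕ) : ℝ) := by exact_mod_cast h1
      _ = E.card * (2 * J + 1) := by push_cast; ring
      _ ≤ E.card * (2 * (ρ / δ) + 3) := by
          refine mul_le_mul_of_nonneg_left ?_ (Nat.cast_nonneg _)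
          linarith
  · rintro y ⟨c, hc, hyc⟩
    have h1 := abs_le.1 hyc
    refine ⟨c + (⌊(y - c) / δ⌋ : ℤ) * δ, ?_, ?_⟩
    · refine Finset.mem_image.2 ⟨(c, ⌊(y - c) / δ⌋), Finset.mem_product.2 ⟨hc, ?_⟩, rfl⟩
      rw [Finset.mem_Icc]
      constructor
      · rw [Int.le_floor]
        push_cast
        rw [le_div_iff₀ hδ]
        rw [div_le_iff₀ hδ] at hJ1
        linarith
      · have h2 : (⌊(y - c) / δ⌋ : ℝ) ≤ J := by
          refine (Int.floor_le _).trans ?_
          rw [div_le_iff₀ hδ]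
          rw [div_le_iff₀ hδ] at hJ1
          linarith
        exact_mod_cast h2
    · have h2 := Int.floor_le ((y - c) / δ)
      have h3 := Int.lt_floor_add_one ((y - c) / δ)
      rw [le_div_iff₀ hδ] at h2
      rw [div_lt_iff₀ hδ] at h3
      rw [abs_le]
      constructor <;> linarith

theorem ms : S_MS := by
  rintro θ₀ Q hθ0 hθ1 ⟨C₀, hC, hQ, hM⟩
  choose X hX1 hX2 using hM
  have hC0 : 0 < C₀ := by linarith
  let Y : ℕ → ℕ → ℝ := fun a => X (m a) (m_pos a)
  have hY1 : ∀ a, ∀ d < m a, |Y a d| ≤ C₀ * m a := fun a => hX1 (m a) (m_pos a)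
  have hY2 : ∀ a, ∀ q ∈ Q, ((cells (m a) (Y a) q).card : ℝ) ≤ C₀ * (m a : ℝ) ^ θ₀ :=
    fun a => hX2 (m a) (m_pos a)
  let f : ℝ → ℕ → ℝ := fun r a => Y a (dg a r) / m (a + 1)
  have hmR : ∀ a, (0 : ℝ) < m a := fun a => by exact_mod_cast m_pos a
  have hmS : ∀ a, (m (a + 1) : ℝ) = m a * m a := fun a => by exact_mod_cast m_succ a
  have hf1 : ∀ r a, |f r a| ≤ C₀ / m a := by
    intro r a
    have h1 := hY1 a _ (dg_lt a r)
    show |Y a (dg a r) / m (a + 1)| ≤ C₀ / m a
    rw [abs_div, abs_of_pos (hmR (a + 1)), hmS, div_le_div_iff₀ (mul_pos (hmR a) (hmR a)) (hmR a)]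
    have := hmR a
    nlinarith
  have hf2 : ∀ r A i, ‖f r (i + A)‖ ≤ C₀ / m A * (1 / 2) ^ i := by
    intro r A i
    rw [Real.norm_eq_abs]
    refine (hf1 r (i + A)).trans ?_
    have h1 : (m A : ℝ) * 2 ^ i ≤ m (i + A) := by
      have := m_ge A i
      rw [add_comm A i] at this
      exact_mod_cast this
    have h2 : C₀ / m A * (1 / 2) ^ i = C₀ / (m A * 2 ^ i) := by
      rw [one_div, inv_pow, div_mul_eq_mul_div, ← div_eq_mul_inv, div_div, mul_comm (2 ^ i : ℝ)]
    rw [h2]
    have h3 : (0 : ℝ) < m A * 2 ^ i := mul_pos (hmR A) (by positivity)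
    exact div_le_div_of_nonneg_left hC0.le h3 h1
  have hgeo : ∀ A, HasSum (fun i : ℕ => C₀ / m A * (1 / 2) ^ i) (C₀ / m A * 2) := fun A =>
    hasSum_geometric_two.mul_left _
  have hsum : ∀ r, Summable (f r) := by
    intro r
    refine Summable.of_norm_bounded (hgeo 0).summable fun i => ?_
    have := hf2 r 0 i
    rwa [add_zero] at this
  let x : ℝ → ℝ := fun r => ∑' a, f r a
  have hx : ∀ r, |x r| ≤ C₀ := by
    intro r
    have h1 : ‖∑' a, f r a‖ ≤ C₀ / m 0 * 2 := by
      refine tsum_of_norm_bounded (hgeo 0) fun i => ?_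
      have := hf2 r 0 i
      rwa [add_zero] at this
    have h2 : (m 0 : ℝ) = 2 := by
      unfold m
      norm_num
    rw [h2] at h1
    have h3 : |x r| ≤ C₀ / 2 * 2 := h1
    linarith
  have htail : ∀ r A, |∑' i, f r (i + A)| ≤ C₀ / m A * 2 := fun r A =>
    tsum_of_norm_bounded (hgeo A) (hf2 r A)
  -- the constants
  obtain ⟨C, hCdef⟩ : ∃ C : ℝ, C = 2 * C₀ * (6 * C₀ + 5) := ⟨_, rfl⟩
  have hCC : 16 * C₀ + 3 ≤ C := by
    rw [hCdef]
    nlinarith
  refine ⟨C, by linarith,
    fun q hq => (hQ q hq).trans (by linarith), x, fun r _ => (hx r).trans (by linarith), ?_⟩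
  intro q hq δ hδ hδ1
  by_cases hδ4 : 1 / 4 < δ
  · -- large `δ`
    obtain ⟨P, hP1, hP2⟩ := cover {0} (2 * C₀) δ (by positivity) hδ
    refine ⟨P, ?_, fun r hr => hP2 _ ⟨0, Finset.mem_singleton_self _, ?_⟩⟩
    · refine hP1.trans ?_
      rw [Finset.card_singleton, Nat.cast_one, one_mul]
      have h1 : 2 * C₀ / δ ≤ 8 * C₀ := by
        rw [div_le_iff₀ hδ]
        nlinarith
      have h2 : 1 ≤ δ ^ (-(1 - (1 - θ₀) / 4)) :=
        Real.one_le_rpow_of_pos_of_le_one_of_nonpos hδ hδ1 (by linarith)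
      have h3 : C * 1 ≤ C * δ ^ (-(1 - (1 - θ₀) / 4)) := by
        refine mul_le_mul_of_nonneg_left h2 ?_
        linarith
      linarith
    · rw [sub_zero]
      have h1 : |q * r| ≤ C₀ := by
        rw [abs_mul, abs_of_nonneg hr.1]
        have := hQ q hq
        have h2 := abs_nonneg q
        nlinarith [hr.2]
      calc |x r + q * r| ≤ |x r| + |q * r| := abs_add_le _ _
        _ ≤ 2 * C₀ := by linarith [hx r]
  · -- small `δ`
    have hδ4 : δ ≤ 1 / 4 := not_lt.1 hδ4
    have hδi : 4 ≤ 1 / δ := by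
      rw [le_div_iff₀ hδ]
      linarith
    obtain ⟨k, hk1, hk2⟩ : ∃ k, (m (k + 1) : ℝ) ≤ 1 / δ ∧ 1 / δ < m (k + 2) := by
      have hex : ∃ n, 1 / δ < (m n : ℝ) := by
        obtain ⟨n, hn⟩ := exists_nat_gt (1 / δ)
        refine ⟨n, hn.trans_le ?_⟩
        have h1 : n ≤ m n := by
          have h2 := m_ge 0 n
          rw [zero_add] at h2
          have h3 : n < 2 ^ n := Nat.lt_two_pow_self
          have h4 := m_pos 0
          nlinarith
        exact_mod_cast h1
      have h1 := Nat.find_spec hex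
      have h2 : 2 ≤ Nat.find hex := by
        rw [Nat.le_find_iff]
        intro n hn
        have h3 : (m n : ℝ) ≤ 4 := by
          have : n = 0 ∨ n = 1 := by omega
          rcases this with rfl | rfl <;> (unfold m; norm_num)
        linarith
      refine ⟨Nat.find hex - 2, ?_, ?_⟩
      · have h3 : Nat.find hex - 2 + 1 < Nat.find hex := by omega
        exact not_lt.1 (Nat.find_min hex h3)
      · have h3 : Nat.find hex - 2 + 2 = Nat.find hex := by omega
        rw [h3]
        exact h1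
    -- the centres
    let U : ℕ → ℝ := fun n => ∑ a ∈ Finset.range k,
      Y a ((n / 2 ^ (2 ^ k - 2 ^ (a + 1))) % m a) / m (a + 1) + q * n / m k
    let E : Finset ℝ := (Finset.range (m k + 1) ×ˢ cells (m k) (Y k) q).image
      (fun z => U z.1 + z.2 / m (k + 1))
    have hE : (E.card : ℝ) ≤ 2 * C₀ * (m k * (m k : ℝ) ^ θ₀) := by
      have h1 : E.card ≤ (m k + 1) * (cells (m k) (Y k) q).card := by
        refine Finset.card_image_le.trans ?_
        rw [Finset.card_product, Finset.card_range]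
      have h2 := hY2 k q hq
      have h3 : (1 : ℝ) ≤ m k := by exact_mod_cast m_pos k
      have h4 : (0 : ℝ) ≤ (cells (m k) (Y k) q).card := Nat.cast_nonneg _
      calc (E.card : ℝ) ≤ (((m k + 1) * (cells (m k) (Y k) q).card : ℕ) : ℝ) := by exact_mod_cast h1
        _ = (m k + 1) * (cells (m k) (Y k) q).card := by push_cast; ring
        _ ≤ (2 * m k) * (C₀ * (m k : ℝ) ^ θ₀) := by
            apply mul_le_mul _ h2 h4 (by positivity)
            linarith
        _ = _ := by ring
    obtain ⟨P, hP1, hP2⟩ := cover E ((3 * C₀ + 1) / m (k + 1)) δ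
      (div_nonneg (by linarith) (hmR _).le) hδ
    refine ⟨P, ?_, fun r hr => hP2 _ ?_⟩
    · -- the count
      refine hP1.trans ?_
      have hmk := hmR k
      have hmk1 := hmR (k + 1)
      have hkδ : 1 ≤ 1 / (δ * m (k + 1)) := by
        rw [le_div_iff₀ (by positivity)]
        rw [le_div_iff₀ hδ] at hk1
        linarith
      have h1 : 2 * ((3 * C₀ + 1) / m (k + 1) / δ) + 3 ≤ (6 * C₀ + 5) * (1 / (δ * m (k + 1))) := by
        have e1 : (3 * C₀ + 1) / m (k + 1) / δ = (3 * C₀ + 1) * (1 / (δ * m (k + 1))) := by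
          field_simp
        rw [e1]
        linarith
      have h2 : (0 : ℝ) ≤ 1 / (δ * m (k + 1)) := by positivity
      have h0 : 0 ≤ 2 * ((3 * C₀ + 1) / m (k + 1) / δ) + 3 := by positivity
      calc (E.card : ℝ) * (2 * ((3 * C₀ + 1) / m (k + 1) / δ) + 3) ≤
          (2 * C₀ * (m k * (m k : ℝ) ^ θ₀)) * ((6 * C₀ + 5) * (1 / (δ * m (k + 1)))) := by
            apply mul_le_mul hE h1 h0 (by positivity)
        _ = C * ((m k : ℝ) ^ (-(1 - θ₀)) * δ ^ (-1 : ℝ)) := by
            rw [hCdef, hmS, Real.rpow_neg_one, neg_sub, Real.rpow_sub_one hmk.ne']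
            field_simp
        _ ≤ C * (δ ^ ((1 - θ₀) / 4) * δ ^ (-1 : ℝ)) := by
            have h3 : (m k : ℝ) ^ (-(1 - θ₀)) ≤ δ ^ ((1 - θ₀) / 4) := by
              have h4 : 1 / δ ≤ (m k : ℝ) ^ (4 : ℝ) := by
                have e1 : ((m k : ℝ)) ^ (4 : ℝ) = m (k + 2) := by
                  rw [show (4 : ℝ) = ((4 : ℕ) : ℝ) by norm_num, Real.rpow_natCast]
                  rw [show k + 2 = k + 1 + 1 from rfl, hmS, hmS]
                  ring
                rw [e1]
                exact hk2.le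
              have h5 : (1 / δ) ^ ((1 - θ₀) / 4) ≤ (m k : ℝ) ^ (1 - θ₀) := by
                calc (1 / δ) ^ ((1 - θ₀) / 4) ≤ ((m k : ℝ) ^ (4 : ℝ)) ^ ((1 - θ₀) / 4) :=
                      Real.rpow_le_rpow (by positivity) h4 (by linarith)
                  _ = (m k : ℝ) ^ (1 - θ₀) := by
                      rw [← Real.rpow_mul hmk.le]
                      congr 1
                      ring
              rw [Real.rpow_neg hmk.le]
              have h6 : 0 < (1 / δ) ^ ((1 - θ₀) / 4) := by positivity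
              have h7 := inv_anti₀ h6 h5
              refine h7.trans (le_of_eq ?_)
              rw [one_div, Real.inv_rpow hδ.le, inv_inv]
            have h4 : 0 ≤ δ ^ (-1 : ℝ) := by positivity
            have h5 : 0 ≤ C := by linarith
            exact mul_le_mul_of_nonneg_left (mul_le_mul_of_nonneg_right h3 h4) h5
        _ = C * δ ^ (-(1 - (1 - θ₀) / 4)) := by
            rw [← Real.rpow_add hδ]
            congr 2
            ring
    · -- the distance
      have hmk := hmR k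
      have hmk1 := hmR (k + 1)
      refine ⟨U (e k r) + (⌊Y k (dg k r) + q * (dg k r)⌋ : ℤ) / m (k + 1), ?_, ?_⟩
      · refine Finset.mem_image.2 ⟨(e k r, ⌊Y k (dg k r) + q * (dg k r)⌋), Finset.mem_product.2
          ⟨?_, ?_⟩, rfl⟩
        · rw [Finset.mem_range]
          exact Nat.lt_succ_of_le (e_le k r hr.2)
        · exact Finset.mem_image.2 ⟨dg k r, Finset.mem_range.2 (dg_lt k r), rfl⟩
      · have hU : U (e k r) = ∑ a ∈ Finset.range k, f r a + q * e k r / m k := by
          show ∑ a ∈ Finset.range k,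
            Y a ((e k r / 2 ^ (2 ^ k - 2 ^ (a + 1))) % m a) / m (a + 1) + q * e k r / m k = _
          congr 1
          refine Finset.sum_congr rfl fun a ha => ?_
          have ha := Finset.mem_range.1 ha
          show _ = Y a (dg a r) / m (a + 1)
          rw [dg, e_eq (a + 1) k ha r]
        have hxr : x r = ∑ a ∈ Finset.range k, f r a + Y k (dg k r) / m (k + 1) +
            ∑' i, f r (i + (k + 1)) := by
          show ∑' a, f r a = _
          rw [← (hsum r).sum_add_tsum_nat_add (k + 1), Finset.sum_range_succ]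
        have he : (e (k + 1) r : ℝ) / m (k + 1) = e k r / m k + dg k r / m (k + 1) := by
          rw [e_succ, hmS]
          push_cast
          field_simp
        have h1 := e_close (k + 1) r hr.1
        have h2 := Int.floor_le (Y k (dg k r) + q * (dg k r))
        have h3 := Int.lt_floor_add_one (Y k (dg k r) + q * (dg k r))
        have h4 := htail r (k + 1)
        generalize hF : (⌊Y k (dg k r) + q * (dg k r)⌋ : ℤ) = F at *
        generalize hT : ∑' i, f r (i + (k + 1)) = T at *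
        have e1 : x r + q * r - (U (e k r) + (F : ℝ) / m (k + 1)) =
            (Y k (dg k r) + q * (dg k r) - F) / m (k + 1) + T +
              q * (r - e (k + 1) r / m (k + 1)) := by
          rw [hxr, hU, he]
          ring
        rw [e1]
        have a1 : |(Y k (dg k r) + q * (dg k r) - F) / m (k + 1)| ≤ 1 / m (k + 1) := by
          rw [abs_div, abs_of_pos hmk1]
          apply div_le_div_of_nonneg_right _ hmk1.le
          rw [abs_le]
          constructor <;> linarith
        have a2 : |q * (r - e (k + 1) r / m (k + 1))| ≤ C₀ * (1 / m (k + 1)) := by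
          rw [abs_mul, abs_of_nonneg h1.1]
          exact mul_le_mul (hQ q hq) h1.2 h1.1 hC0.le
        calc |(Y k (dg k r) + q * (dg k r) - F) / m (k + 1) + T +
              q * (r - e (k + 1) r / m (k + 1))| ≤
            1 / m (k + 1) + C₀ / m (k + 1) * 2 + C₀ * (1 / m (k + 1)) := by
              refine (abs_add_le _ _).trans (add_le_add ((abs_add_le _ _).trans
                (add_le_add a1 h4)) a2)
          _ = (3 * C₀ + 1) / m (k + 1) := by ring

end Pool.Agent.Helper20.GT2.MSP
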